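import Mathlib

namespace Pool.Agent.MP_f58820_co

/-- The column of the Paley frame indexed by `x`: the vector with entries
`exp (2 π i Tr(a x) / p)`, `a` running over the nonzero squares of `F`. -/
noncomputable def paleyColumn (p : ℕ) [Fact p.Prime] (F : Type) [Field F] [Algebra (ZMod p) F]
    (x : F) : {a : F // a ≠ 0 ∧ IsSquare a} → ℂ :=
  fun a => Complex.exp
    (2 * Real.pi * Complex.I * ((Algebra.trace (ZMod p) F (a.1 * x)).val : ℂ) / (p : ℂ))

/-- The spark of a family of complex vectors: the least size of a linearly dependent subfamily. -/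
noncomputable def spark {J V : Type} [AddCommGroup V] [Module ℂ V] (φ : J → V) : ℕ :=
  sInf {k : ℕ | ∃ K : Finset J, K.card = k ∧ ¬ LinearIndependent ℂ (fun j : K => φ j.1)}

end Pool.Agent.MP_f58820_co
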