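import Mathlib

namespace Pool.Agent.MP_f58820_co

open Matrix

theorem reduce_dep {ι κ R k : Type} [Fintype ι] [Fintype κ] [DecidableEq ι] [DecidableEq κ]
    [CommRing R] [Field k] (e : R →+* ℂ) (he : Function.Injective e) (ρ : R →+* k)
    (hρ : Function.Surjective ρ) (H : κ → ι → R) (c : ι → ℂ) (hc : c ≠ 0)
    (h : ∀ s, ∑ x, c x * e (H s x) = 0) :
    ∃ f : ι → k, f ≠ 0 ∧ ∀ s, ∑ x, f x * ρ (H s x) = 0 := by
  by_contra hcon
  push Not at hcon
  let M : Matrix κ ι R := Matrix.of H
  have hker : LinearMap.ker (Matrix.toLin' (M.map ρ)) = ⊥ := by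
    rw [LinearMap.ker_eq_bot']
    intro f hf
    by_contra hf0
    obtain ⟨s, hs⟩ := hcon f hf0
    apply hs
    have := congrFun hf s
    simp only [Matrix.toLin'_apply, Matrix.mulVec, dotProduct, Matrix.map_apply, M,
      Matrix.of_apply, Pi.zero_apply] at this
    rw [← this]
    exact Finset.sum_congr rfl fun x _ => mul_comm _ _
  obtain ⟨g, hg⟩ := LinearMap.exists_leftInverse_of_injective _ hker
  have hNM : LinearMap.toMatrix' g * M.map ρ = 1 := by
    have := congrArg LinearMap.toMatrix' hg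
    rwa [LinearMap.toMatrix'_comp, LinearMap.toMatrix'_toLin', LinearMap.toMatrix'_id] at this
  let N : Matrix ι κ R := (LinearMap.toMatrix' g).map (Function.surjInv hρ)
  have hN : N.map ρ = LinearMap.toMatrix' g := by
    ext i j
    simp [N, Function.surjInv_eq hρ]
  have hdet : ρ (N * M).det = 1 := by
    rw [RingHom.map_det, RingHom.mapMatrix_apply, Matrix.map_mul, hN, hNM, Matrix.det_one]
  have hdet0 : (N * M).det ≠ 0 := by
    intro h0
    rw [h0, map_zero] at hdet
    exact zero_ne_one hdet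
  have hdetC : ((N * M).map e).det ≠ 0 := by
    rw [← RingHom.mapMatrix_apply, ← RingHom.map_det]
    intro h0
    exact hdet0 (he (by rw [h0, map_zero]))
  apply hc
  apply Matrix.eq_zero_of_mulVec_eq_zero hdetC
  rw [Matrix.map_mul, ← Matrix.mulVec_mulVec]
  have : (M.map e) *ᵥ c = 0 := by
    funext s
    simp only [Matrix.mulVec, dotProduct, Matrix.map_apply, M, Matrix.of_apply, Pi.zero_apply]
    rw [← h s]
    exact Finset.sum_congr rfl fun x _ => mul_comm _ _
  rw [this, Matrix.mulVec_zero]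

theorem chain_le {F : Type} [Field F] [DecidableEq F] (K : Finset F) (f : F → F) (L : ℕ)
    (r c : Fin L → ℕ)
    (hn : ∀ a, ∑ x ∈ K, f x * x ^ (r a + c a) ≠ 0)
    (hz : ∀ a b, b < a → ∑ x ∈ K, f x * x ^ (r a + c b) = 0) : L ≤ K.card := by
  let U : Matrix (Fin L) K F := Matrix.of fun a x => f x * (x : F) ^ r a
  let V : Matrix K (Fin L) F := Matrix.of fun x b => (x : F) ^ c b
  have hUV : ∀ a b, (U * V) a b = ∑ x ∈ K, f x * x ^ (r a + c b) := by
    intro a b
    rw [Matrix.mul_apply, ← Finset.sum_coe_sort K]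
    refine Finset.sum_congr rfl fun x _ => ?_
    simp only [U, V, Matrix.of_apply, pow_add, mul_assoc]
  have htri : (U * V).BlockTriangular id := by
    intro a b hab
    rw [hUV]
    exact hz a b hab
  have hdet : (U * V).det ≠ 0 := by
    rw [Matrix.det_of_isUpperTriangular htri]
    exact Finset.prod_ne_zero_iff.2 fun a _ => by rw [hUV]; exact hn a
  have hrank : (U * V).rank = L := by
    rw [Matrix.rank_of_isUnit _ ((Matrix.isUnit_iff_isUnit_det _).2 hdet.isUnit)]
    simp
  calc L = (U * V).rank := hrank.symm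
    _ ≤ U.rank := Matrix.rank_mul_le_left _ _
    _ ≤ Fintype.card K := Matrix.rank_le_card_width _
    _ = K.card := by simp

end Pool.Agent.MP_f58820_co
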