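import Mathlib
import Pool.Agent.MP_f58820_co.Lin

namespace Pool.Agent.MP_f58820_co

/-- bit mask of the exponents `j < 242` whose moment vanishes -/
def jMask : ℕ := 486226856721746414411477349941085579084303679855600384434815375359999

section
variable {F : Type} [Field F] [Fintype F] [DecidableEq F] [Algebra (ZMod 3) F]

def mom (f : F → ZMod 3) (j : ℕ) : F := ∑ x, algebraMap (ZMod 3) F (f x) * x ^ j

def suppStar (f : F → ZMod 3) : Finset F := Finset.univ.filter fun x => x ≠ 0 ∧ f x ≠ 0

def mst (f : F → ZMod 3) (j : ℕ) : F := ∑ x ∈ suppStar f, algebraMap (ZMod 3) F (f x) * x ^ j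

def Good (f : F → ZMod 3) : Prop := ∀ j < 242, jMask.testBit j = true → mom f j = 0

theorem mom_eq (f : F → ZMod 3) (j : ℕ) :
    mom f j = mst f j + algebraMap (ZMod 3) F (f 0) * 0 ^ j := by
  unfold mom mst suppStar
  rw [Finset.sum_filter, ← Finset.add_sum_erase _ _ (Finset.mem_univ (0 : F)),
    ← Finset.add_sum_erase Finset.univ _ (Finset.mem_univ (0 : F))]
  simp only [ne_eq, not_true_eq_false, false_and, if_false, zero_add]
  rw [add_comm]
  congr 1
  refine Finset.sum_congr rfl fun x hx => ?_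
  have hx0 : x ≠ 0 := (Finset.mem_erase.1 hx).1
  by_cases h : f x = 0
  · simp [h]
  · simp [h, hx0]

theorem mst_eq_mom (f : F → ZMod 3) {j : ℕ} (hj : j ≠ 0) : mst f j = mom f j := by
  rw [mom_eq, zero_pow hj, mul_zero, add_zero]

theorem mst_mod (hq : Fintype.card F = 243) (f : F → ZMod 3) (j : ℕ) :
    mst f j = mst f (j % 242) := by
  unfold mst
  refine Finset.sum_congr rfl fun x hx => ?_
  have hx0 : x ≠ 0 := (Finset.mem_filter.1 hx).2.1
  have h1 : x ^ 242 = 1 := by
    have := FiniteField.pow_card_sub_one_eq_one x hx0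
    rwa [hq] at this
  conv_lhs => rw [← Nat.div_add_mod j 242, pow_add, pow_mul, h1, one_pow, one_mul]

theorem charP_three : CharP F 3 := by
  rw [← Algebra.charP_iff (ZMod 3) F 3]; exact ZMod.charP 3

theorem mst_three (f : F → ZMod 3) (j : ℕ) : mst f (3 * j) = mst f j ^ 3 := by
  haveI : Fact (Nat.Prime 3) := ⟨by norm_num⟩
  haveI : CharP F 3 := charP_three
  unfold mst
  rw [sum_pow_char]
  refine Finset.sum_congr rfl fun x _ => ?_
  rw [mul_pow, ← map_pow, ZMod.pow_card, ← pow_mul, mul_comm j 3]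

def clsMem (l : List ℕ) (n : ℕ) : Bool :=
  l.any fun j => n == j % 242 || n == 3 * j % 242 || n == 9 * j % 242 || n == 27 * j % 242
    || n == 81 * j % 242

theorem cls_pow (hq : Fintype.card F = 243) (f : F → ZMod 3) (l : List ℕ) (n : ℕ)
    (h : clsMem l n = true) : ∃ j ∈ l, ∃ e : ℕ, e ≠ 0 ∧ mst f n = mst f j ^ e := by
  unfold clsMem at h
  rw [List.any_eq_true] at h
  obtain ⟨j, hj, h⟩ := h
  refine ⟨j, hj, ?_⟩
  have h9 : 9 * j = 3 * (3 * j) := by ring
  have h27 : 27 * j = 3 * (3 * (3 * j)) := by ring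
  have h81 : 81 * j = 3 * (3 * (3 * (3 * j))) := by ring
  simp only [Bool.or_eq_true, beq_iff_eq] at h
  rcases h with (((h | h) | h) | h) | h
  · exact ⟨1, by norm_num, by rw [h, ← mst_mod hq, pow_one]⟩
  · exact ⟨3, by norm_num, by rw [h, ← mst_mod hq, mst_three]⟩
  · exact ⟨9, by norm_num, by rw [h, ← mst_mod hq, h9, mst_three, mst_three, ← pow_mul]⟩
  · exact ⟨27, by norm_num, by
      rw [h, ← mst_mod hq, h27, mst_three, mst_three, mst_three, ← pow_mul, ← pow_mul]⟩
  · exact ⟨81, by norm_num, by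
      rw [h, ← mst_mod hq, h81, mst_three, mst_three, mst_three, mst_three, ← pow_mul, ← pow_mul,
        ← pow_mul]⟩

def leafOK (zl nl : List ℕ) (zm nm : ℕ) (rl cl : List ℕ) : Bool :=
  ((List.range 242).all fun n =>
      !zm.testBit n || (n != 0 && jMask.testBit n) || clsMem zl n) &&
  ((List.range 242).all fun n => !nm.testBit n || clsMem nl n) &&
  ((List.range rl.length).all fun a =>
      nm.testBit ((rl.getD a 0 + cl.getD a 0) % 242) &&
      (List.range a).all fun b => zm.testBit ((rl.getD a 0 + cl.getD b 0) % 242))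

theorem leaf (hq : Fintype.card F = 243) (f : F → ZMod 3) (hf : Good f)
    (zl nl : List ℕ) (zm nm : ℕ) (rl cl : List ℕ)
    (hz : ∀ j ∈ zl, mst f j = 0) (hn : ∀ j ∈ nl, mst f j ≠ 0)
    (h : leafOK zl nl zm nm rl cl = true) : rl.length ≤ (suppStar f).card := by
  unfold leafOK at h
  simp only [Bool.and_eq_true, List.all_eq_true, List.mem_range, Bool.or_eq_true,
    Bool.not_eq_true', bne_iff_ne] at h
  obtain ⟨⟨h1, h2⟩, h3⟩ := h
  have hZ : ∀ n, zm.testBit (n % 242) = true → mst f n = 0 := by
    intro n hn'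
    rw [mst_mod hq]
    have hlt : n % 242 < 242 := Nat.mod_lt _ (by norm_num)
    rcases h1 _ hlt with (h | h) | h
    · rw [h] at hn'; exact absurd hn' (by simp)
    · rw [mst_eq_mom f h.1]; exact hf _ hlt h.2
    · obtain ⟨j, hj, e, he, hje⟩ := cls_pow hq f zl _ h
      rw [hje, hz j hj, zero_pow he]
  have hN : ∀ n, nm.testBit (n % 242) = true → mst f n ≠ 0 := by
    intro n hn'
    rw [mst_mod hq]
    have hlt : n % 242 < 242 := Nat.mod_lt _ (by norm_num)
    rcases h2 _ hlt with h | h
    · rw [h] at hn'; exact absurd hn' (by simp)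
    · obtain ⟨j, hj, e, he, hje⟩ := cls_pow hq f nl _ h
      rw [hje]; exact pow_ne_zero _ (hn j hj)
  apply chain_le (suppStar f) (fun x => algebraMap (ZMod 3) F (f x)) rl.length
    (fun a => rl.getD a 0) (fun a => cl.getD a 0)
  · intro a
    exact hN _ (h3 a a.2).1
  · intro a b hab
    exact hZ _ ((h3 a a.2).2 b hab)

/-- translation -/
def shiftFn (f : F → ZMod 3) (b : F) : F → ZMod 3 := fun x => f (x - b)

theorem mom_shift (f : F → ZMod 3) (b : F) (j : ℕ) :
    mom (shiftFn f b) j =
      ∑ i ∈ Finset.range (j + 1), mom f i * b ^ (j - i) * (j.choose i : F) := by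
  unfold mom shiftFn
  rw [← Equiv.sum_comp (Equiv.addRight b)]
  simp only [Equiv.coe_addRight, add_sub_cancel_right, add_pow, Finset.mul_sum, Finset.sum_mul]
  rw [Finset.sum_comm]
  refine Finset.sum_congr rfl fun i _ => Finset.sum_congr rfl fun x _ => by ring

def shiftOK (j : ℕ) (ex : List ℕ) : Bool :=
  (List.range (j + 1)).all fun i =>
    jMask.testBit i || ex.contains i || (j.descFactorial i / i.factorial) % 3 == 0

theorem mom_shift_ex (f : F → ZMod 3) (hf : Good f) (b : F) (j : ℕ) (hj : j < 242)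
    (ex : List ℕ) (hex : ∀ i ∈ ex, i ≤ j) (h : shiftOK j ex = true) :
    mom (shiftFn f b) j = ∑ i ∈ ex.toFinset, mom f i * b ^ (j - i) * (j.choose i : F) := by
  haveI : CharP F 3 := charP_three
  rw [mom_shift]
  symm
  apply Finset.sum_subset
  · intro i hi
    rw [List.mem_toFinset] at hi
    exact Finset.mem_range.2 (Nat.lt_succ_of_le (hex i hi))
  · intro i hi hi'
    unfold shiftOK at h
    simp only [List.all_eq_true, List.mem_range, Bool.or_eq_true, beq_iff_eq,
      List.contains_iff_mem] at h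
    have hi2 := Finset.mem_range.1 hi
    rcases h i hi2 with (h | h) | h
    · rw [hf i (by omega) h]; simp
    · exact absurd (List.mem_toFinset.2 h) hi'
    · rw [← Nat.choose_eq_descFactorial_div_factorial] at h
      rw [(CharP.cast_eq_zero_iff F 3 _).2 (Nat.dvd_of_mod_eq_zero h), mul_zero]

theorem shift_all : ((List.range 242).all fun j => !jMask.testBit j || shiftOK j []) = true := by
  decide +kernel

theorem good_shift (f : F → ZMod 3) (hf : Good f) (b : F) : Good (shiftFn f b) := by
  intro j hj hJ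
  have := shift_all
  simp only [List.all_eq_true, List.mem_range, Bool.or_eq_true, Bool.not_eq_true'] at this
  rcases this j hj with h | h
  · rw [h] at hJ; exact absurd hJ (by simp)
  · rw [mom_shift_ex f hf b j hj [] (by simp) h]; simp

theorem mom_shift_14 (f : F → ZMod 3) (hf : Good f) (b : F) :
    mom (shiftFn f b) 14 = mom f 14 := by
  rw [mom_shift_ex f hf b 14 (by norm_num) [14] (by simp) (by decide +kernel)]; simp

theorem mom_shift_59 (f : F → ZMod 3) (hf : Good f) (b : F) :
    mom (shiftFn f b) 59 = mom f 59 := by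
  rw [mom_shift_ex f hf b 59 (by norm_num) [59] (by simp) (by decide +kernel)]; simp

theorem mom_shift_62 (f : F → ZMod 3) (hf : Good f) (b : F) :
    mom (shiftFn f b) 62 = mom f 62 - mom f 59 * b ^ 3 := by
  haveI : CharP F 3 := charP_three
  rw [mom_shift_ex f hf b 62 (by norm_num) [59, 62] (by simp) (by decide +kernel)]
  have h3 : (3 : F) = 0 := CharP.cast_eq_zero F 3
  have hc : Nat.choose 62 59 = 37820 := by
    rw [Nat.choose_eq_descFactorial_div_factorial]; decide +kernel
  rw [show ([59, 62] : List ℕ).toFinset = {59, 62} by simp, Finset.sum_pair (by norm_num), hc]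
  simp only [Nat.choose_self, Nat.cast_one, Nat.reduceSub, pow_zero, mul_one, Nat.cast_ofNat]
  linear_combination (12607 * mom f 59 * b ^ 3) * h3

theorem mom_shift_95 (f : F → ZMod 3) (hf : Good f) (b : F) :
    mom (shiftFn f b) 95 = mom f 95 + mom f 14 * b ^ 81 := by
  haveI : CharP F 3 := charP_three
  rw [mom_shift_ex f hf b 95 (by norm_num) [14, 95] (by simp) (by decide +kernel)]
  have hc : Nat.choose 95 14 % 3 = 1 := by
    rw [Nat.choose_eq_descFactorial_div_factorial]; decide +kernel
  have hc' : ((Nat.choose 95 14 : ℕ) : F) = 1 := by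
    rw [CharP.cast_eq_mod F 3, hc, Nat.cast_one]
  rw [show ([14, 95] : List ℕ).toFinset = {14, 95} by simp, Finset.sum_pair (by norm_num), hc']
  simp only [Nat.choose_self, Nat.cast_one, Nat.reduceSub, pow_zero, mul_one]
  ring

end

end Pool.Agent.MP_f58820_co
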