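import Mathlib
import Pool.Agent.MP_f58820_co.Moments

namespace Pool.Agent.MP_f58820_co

set_option linter.unusedSectionVars false
set_option linter.style.haveILetI false

def dg (t k : ℕ) : ℕ := t / 4 ^ k % 4
def tab0 : ℕ := 66560187069653982916658727560491437506248446931443230912475327619030658916642055668481742374975601418164692819666211733812892555629203995865122817
def tab1 : ℕ := 519855724468093958144386655575643760281673236315110895069392087567952951155872148886685797298386000246130957412874459282142724494883248611271684
def tab2 : ℕ := 2079422897872375832577546622302575041126692945260443580277568350271811804623488595546743189193544000984523829651497837128570897979532994445086736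
def tab3 : ℕ := 8317691591489503330310186489210300164506771781041774321110273401087247218493954382186972756774176003938095318605991348514283591918131977780346944
def tab4 : ℕ := 33270766365958013321240745956841200658027087124167097284441093604348988873975817528747891027096704015752381274423965394057134367672527911121387776
def trTab : ℕ := 16695864907658272946702589535084902562789579382971911170875420979001322235400369119468272623436751007949718798964368629423500473624347298001650946
def gre : ℕ := 587128034233680309187371459319147867658607068760376111016798451809928145086704148669442308068366308008430640388598036505207815386220096340877010856777490003830135537582609422480611274410410866942445101197273090102335071346097130115193980939416158358887426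
def gim : ℕ := 1229265098105993951094852253378486900029230218179349914552529972511939367215985982370895662679247238322868758522594863044257398515034648589693485979624757462103593618817993190837599601287493995023927291803854356398424093776944226998129704943588810576415

def jl (r : ℕ) : ℕ := if jMask.testBit r then r else r + 121

def sumTab (t : ℕ) (l : List ℕ) : ℕ := (l.map fun n => dg t n).sum

def scalarOK (l : List ℕ) (v : ℕ) : Bool :=
  l.all (fun n => n < 243) && sumTab tab0 l % 3 == v && sumTab tab1 l % 3 == 0 &&
    sumTab tab2 l % 3 == 0 && sumTab tab3 l % 3 == 0 && sumTab tab4 l % 3 == 0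

theorem step_ok : ((List.range 242).all fun k =>
    dg tab0 (k + 1) == 2 * dg tab4 k % 3 && dg tab1 (k + 1) == (dg tab0 k + dg tab4 k) % 3 &&
    dg tab2 (k + 1) == dg tab1 k && dg tab3 (k + 1) == dg tab2 k &&
    dg tab4 (k + 1) == dg tab3 k) = true := by decide +kernel

section
variable {R : Type} [CommRing R] [CharP R 3]

theorem pow_tab (g : R) (hg : g ^ 5 = g + 2) (k : ℕ) (hk : k < 243) :
    g ^ k = (dg tab0 k : R) + (dg tab1 k : R) * g + (dg tab2 k : R) * g ^ 2
      + (dg tab3 k : R) * g ^ 3 + (dg tab4 k : R) * g ^ 4 := by
  induction k with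
  | zero =>
    have h0 : dg tab0 0 = 1 := by decide +kernel
    have h1 : dg tab1 0 = 0 := by decide +kernel
    have h2 : dg tab2 0 = 0 := by decide +kernel
    have h3 : dg tab3 0 = 0 := by decide +kernel
    have h4 : dg tab4 0 = 0 := by decide +kernel
    simp [h0, h1, h2, h3, h4]
  | succ k ih =>
    have h := step_ok
    simp only [List.all_eq_true, List.mem_range, Bool.and_eq_true, beq_iff_eq] at h
    obtain ⟨⟨⟨⟨h0, h1⟩, h2⟩, h3⟩, h4⟩ := h k (by omega)
    rw [h0, h1, h2, h3, h4, ← CharP.cast_eq_mod R 3, ← CharP.cast_eq_mod R 3, pow_succ,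
      ih (by omega)]
    push_cast
    linear_combination (dg tab4 k : R) * hg

theorem sum_tab (g : R) (hg : g ^ 5 = g + 2) (l : List ℕ) (hl : ∀ n ∈ l, n < 243) :
    (l.map fun n => g ^ n).sum = (sumTab tab0 l : R) + (sumTab tab1 l : R) * g
      + (sumTab tab2 l : R) * g ^ 2 + (sumTab tab3 l : R) * g ^ 3
      + (sumTab tab4 l : R) * g ^ 4 := by
  induction l with
  | nil => simp [sumTab]
  | cons a t ih =>
    have iht := ih fun n hn => hl n (List.mem_cons_of_mem _ hn)
    simp only [sumTab, List.map_cons, List.sum_cons] at iht ⊢
    rw [iht, pow_tab g hg a (hl a List.mem_cons_self)]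
    push_cast
    ring

theorem scalar_sum (g : R) (hg : g ^ 5 = g + 2) (l : List ℕ) (v : ℕ)
    (h : scalarOK l v = true) : (l.map fun n => g ^ n).sum = (v : R) := by
  unfold scalarOK at h
  simp only [Bool.and_eq_true, List.all_eq_true, decide_eq_true_eq, beq_iff_eq] at h
  obtain ⟨⟨⟨⟨⟨hl, h0⟩, h1⟩, h2⟩, h3⟩, h4⟩ := h
  rw [sum_tab g hg l hl, CharP.cast_eq_mod R 3 (sumTab tab0 l),
    CharP.cast_eq_mod R 3 (sumTab tab1 l), CharP.cast_eq_mod R 3 (sumTab tab2 l),
    CharP.cast_eq_mod R 3 (sumTab tab3 l), CharP.cast_eq_mod R 3 (sumTab tab4 l),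
    h0, h1, h2, h3, h4]
  simp

theorem pow_242 (g : R) (hg : g ^ 5 = g + 2) : g ^ 242 = 1 := by
  have := scalar_sum g hg [242] 1 (by decide +kernel)
  simpa using this

theorem pow_mod_242 (g : R) (hg : g ^ 5 = g + 2) (n : ℕ) : g ^ n = g ^ (n % 242) := by
  conv_lhs => rw [← Nat.div_add_mod n 242, pow_add, pow_mul, pow_242 g hg, one_pow, one_mul]

theorem prim_root [Nontrivial R] (g : R) (hg : g ^ 5 = g + 2) : IsPrimitiveRoot g 242 := by
  have h3 : (3 : R) = 0 := CharP.cast_eq_zero R 3
  rw [IsPrimitiveRoot.iff_orderOf]
  apply orderOf_eq_of_pow_and_pow_div_prime (by norm_num) (pow_242 g hg)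
  intro p hp hd
  have hp' : p = 2 ∨ p = 11 := by
    have : p ∣ 2 * 11 ^ 2 := by simpa using hd
    rcases (Nat.Prime.dvd_mul hp).1 this with h | h
    · exact Or.inl ((Nat.prime_dvd_prime_iff_eq hp Nat.prime_two).1 h)
    · exact Or.inr ((Nat.prime_dvd_prime_iff_eq hp (by norm_num)).1 (hp.dvd_of_dvd_pow h))
  rcases hp' with rfl | rfl
  · have := scalar_sum g hg [121] 2 (by decide +kernel)
    simp only [List.map_cons, List.map_nil, List.sum_cons, List.sum_nil, add_zero,
      Nat.cast_ofNat] at this
    intro h
    rw [show 242 / 2 = 121 by norm_num, this] at h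
    have : (1 : R) = 0 := by linear_combination h
    exact one_ne_zero this
  · have := scalar_sum g hg [0, 22, 44, 66, 88, 110, 132, 154, 176, 198, 220] 0
      (by decide +kernel)
    simp only [List.map_cons, List.map_nil, List.sum_cons, List.sum_nil, add_zero,
      Nat.cast_zero] at this
    intro h
    rw [show 242 / 11 = 22 by norm_num] at h
    have e : ∀ i : ℕ, g ^ (22 * i) = 1 := fun i => by rw [pow_mul, h, one_pow]
    rw [e 0, e 1, e 2, e 3, e 4, e 5, e 6, e 7, e 8, e 9, e 10] at this
    have : (1 : R) = 0 := by linear_combination 4 * h3 - this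
    exact one_ne_zero this

end

theorem trace_ok : ((List.range 242).all fun k => dg trTab k < 3 &&
    scalarOK [k, k * 3 % 242, k * 9 % 242, k * 27 % 242, k * 81 % 242] (dg trTab k)) = true := by
  decide +kernel

def eis (t : ℕ) : ℤ√(-3) := if t = 0 then ⟨2, 0⟩ else if t = 1 then ⟨-1, 1⟩ else ⟨-1, -1⟩

def gam (i : ℕ) : ℤ√(-3) := ⟨((gre / 128 ^ i % 128 : ℕ) : ℤ), ((gim / 128 ^ i % 128 : ℕ) : ℤ)⟩

def certSum (t : ℕ → ℕ) : ℤ√(-3) := ((List.range 121).map fun i => gam i * eis (t i)).sum

def certOK (z : ℤ√(-3)) (l : List ℕ) : Bool :=
  z.re % 27 == 0 && z.im % 27 == 0 && scalarOK l (z.re / 27 % 3).toNat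

theorem cert_ok : ((List.range 242).all fun k =>
    certOK (certSum fun i => dg trTab ((2 * i + k) % 242))
      ((List.range 121).map fun r => k * jl r % 242)) = true := by
  decide +kernel

theorem cert_zero : certOK (certSum fun _ => 0) [0] = true := by
  decide +kernel

theorem jl_ok : ((List.range 242).all fun j => !jMask.testBit j || jl (j % 121) == j) = true := by
  decide +kernel

theorem jl_pos : ((List.range 121).all fun r => r == 0 || jl r != 0) = true := by
  decide +kernel

end Pool.Agent.MP_f58820_co
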