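import Mathlib
import Pool.Agent.MP_f58820_co.Moments

namespace Pool.Agent.MP_f58820_co

theorem leaf1 : leafOK [62] [59, 107, 0]
    492966843388638284056922984155208854350559187004615679432896771112958
    221071562670836116828354921840805133946833249454680626542974515365806081
    [0, 2, 22, 48, 38, 29, 21, 9, 74, 164, 173, 83, 3, 12, 57, 84, 4, 88, 10, 13, 31, 65, 76, 37, 58, 40, 85, 64, 66, 93, 92, 67]
    [0, 240, 25, 241, 9, 18, 26, 188, 107, 17, 8, 24, 239, 215, 185, 23, 238, 233, 232, 214, 206, 224, 213, 205, 179, 187, 22, 178, 161, 208, 197, 175] = true := by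
  decide +kernel

theorem leaf2 : leafOK [62, 0] [59, 107, 23, 14, 95, 17]
    492966843388638284056922984155208854350559187004615679432896771112959
    221071773501120077812378754923285410878489697037701582664997494463807488
    [14, 9, 1, 39, 28, 36, 55, 63, 82, 225, 144, 222, 99, 89, 64, 116, 90, 37, 91, 10, 61, 97, 96, 87, 105, 168, 7, 34, 114, 115, 88, 106, 195]
    [0, 218, 236, 3, 209, 191, 182, 164, 155, 158, 239, 161, 238, 212, 237, 185, 77, 5, 86, 4, 166, 84, 85, 140, 76, 59, 210, 163, 113, 92, 119, 30, 32] = true := by
  decide +kernel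

theorem leaf3 : leafOK [62, 0, 17] [59, 107, 23, 14, 95]
    493177467971975398617402447770473416424317102070856602384255634358271
    221071562876536740697818275459670146316415939122635341742046135600562176
    [14, 5, 12, 153, 144, 61, 89, 96, 113, 37, 7, 86, 192, 103, 114, 102, 117, 112, 111, 92, 120, 174, 165, 84, 13, 94, 93, 4, 90, 91, 88, 87, 85]
    [0, 161, 185, 158, 239, 240, 212, 241, 188, 160, 159, 215, 179, 186, 170, 187, 167, 24, 18, 15, 9, 3, 12, 23, 164, 1, 191, 189, 166, 194, 168, 224, 216] = true := by
  decide +kernel

theorem leaf4 : leafOK [62, 0, 95] [59, 107, 23, 14]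
    492966843401192487527696390285051394992102293916440817011004253519871
    221071562876524186494347502053540303775774396015723516604468028118155264
    [14, 5, 55, 15, 46, 25, 16, 11, 19, 193, 190, 145, 172, 93, 174, 13, 199, 201, 67, 40, 119, 111, 120, 31, 64, 91, 112, 34, 109, 118, 37, 115, 28]
    [0, 232, 71, 241, 80, 152, 161, 155, 158, 215, 188, 233, 236, 134, 53, 214, 224, 218, 217, 216, 137, 238, 164, 110, 77, 230, 29, 163, 68, 59, 140, 82, 228] = true := by
  decide +kernel

theorem leaf5 : leafOK [62, 0, 14] [59, 107, 23, 17, 41]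
    492966843388638284150459089031583997639085497560947535849665104576511
    221071773501107523656704931065035299080719480940412293772870874663354368
    [17, 27, 34, 46, 5, 85, 83, 16, 84, 173, 25, 186, 19, 219, 3, 10, 183, 198, 82, 166, 4, 1, 28, 163, 164, 180, 174, 190, 192, 191, 189, 162, 165]
    [0, 80, 89, 81, 170, 90, 84, 161, 83, 86, 116, 107, 108, 162, 164, 143, 82, 167, 87, 9, 135, 152, 153, 126, 125, 215, 85, 111, 91, 92, 180, 187, 12] = true := by
  decide +kernel

theorem leaf6 : leafOK [62, 0, 14, 41] [59, 107, 23, 17]
    492966843388638332040944741787689883798938817739815637717921119993855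
    221071773501107523608814445412279193194559627620233425671002618647937024
    [17, 20, 57, 66, 30, 14, 28, 11, 13, 27, 61, 21, 123, 25, 115, 171, 10, 24, 63, 99, 88, 60, 18, 42, 12, 16, 8, 36, 15, 90, 87, 9, 114]
    [0, 239, 236, 75, 21, 3, 237, 12, 4, 24, 76, 48, 84, 156, 102, 240, 13, 183, 6, 78, 49, 81, 241, 111, 57, 1, 159, 33, 192, 77, 66, 60, 83] = true := by
  decide +kernel

theorem leaf7 : leafOK [62, 0, 14, 17] [59, 107, 23]
    493177467971975398710938552646848559712843412627188458801023967821823
    221071562876524186494253965948663928632485869705167184748051259784691712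
    [23, 14, 8, 25, 186, 28, 200, 147, 111, 19, 103, 189, 11, 119, 37, 109, 105, 173, 96, 108, 198, 92, 174, 144, 126, 180, 94, 100, 117, 93, 118, 99, 90]
    [0, 155, 161, 152, 233, 153, 179, 236, 154, 188, 162, 234, 158, 182, 170, 156, 72, 206, 215, 73, 181, 173, 209, 235, 163, 239, 207, 81, 20, 218, 19, 190, 137] = true := by
  decide +kernel

theorem leaf8 : leafOK [62, 0, 23] [59, 107, 104, 14]
    492967049076707949955967092014003540003179437491173884509641189998591
    221071564316441107777420687082075045072386378386378167072720682286596096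
    [14, 2, 35, 82, 168, 29, 31, 55, 34, 37, 28, 38, 119, 144, 171, 174, 195, 190, 114, 198, 191, 162, 165, 192, 120, 138, 135, 109, 111, 108, 117, 110, 189]
    [0, 134, 161, 54, 215, 152, 135, 81, 162, 144, 153, 143, 137, 140, 141, 138, 224, 188, 63, 170, 197, 221, 218, 216, 136, 3, 154, 27, 145, 73, 9, 127, 21] = true := by
  decide +kernel

theorem leaf9 : leafOK [62, 0, 23, 14] [59, 107, 104]
    492967049076707950049503196890378683291705748047505740926409523462143
    221071564316441107777327150977198669929097852075821835216303913953132544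
    [47, 20, 5, 9, 168, 222, 195, 31, 82, 137, 109, 136, 93, 138, 72, 90, 48, 57, 49, 58, 38, 40, 46, 45, 36, 117, 198, 144, 225, 37, 63, 54, 55]
    [0, 27, 54, 218, 215, 216, 224, 206, 207, 209, 212, 45, 48, 208, 217, 51, 56, 47, 128, 46, 21, 137, 135, 136, 191, 110, 29, 37, 227, 33, 83, 50, 182] = true := by
  decide +kernel

theorem leaf10 : leafOK [62, 0, 23, 104] [59, 107]
    492968694681698898928196228407539522267782058632382557839039777325055
    221071562670836116828354921840805133946833249454680626542974515365806080
    [47, 16, 89, 182, 116, 200, 101, 199, 82, 25, 183, 106, 39, 91, 28, 19, 100, 109, 34, 37, 67, 192, 118, 115, 22, 40, 31, 111, 120, 201, 103, 112, 102]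
    [0, 161, 232, 241, 233, 223, 80, 224, 239, 152, 236, 71, 188, 230, 149, 158, 221, 240, 143, 140, 160, 227, 231, 62, 155, 141, 206, 70, 61, 148, 78, 177, 125] = true := by
  decide +kernel

theorem leaf11 : leafOK [62, 107] [59, 98]
    221564529514224751855858820482158925639880048054586261671904242516738046
    107839786693714222673330470057172023123844473405654091748142498185216
    [47, 49, 57, 60, 2, 81, 162, 63, 30, 87, 111, 22, 144, 1, 197, 8, 25, 19, 168, 222, 90, 192, 108, 171, 35, 225, 36, 117, 31, 189, 28, 34, 198]
    [0, 3, 84, 81, 57, 75, 236, 78, 164, 54, 83, 30, 82, 155, 239, 218, 27, 137, 215, 72, 66, 2, 48, 55, 191, 69, 158, 77, 110, 209, 128, 107, 185] = true := by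
  decide +kernel

theorem leaf12 : leafOK [62, 107, 98] [59, 26]
    221672369300918462821979126609414680501700131940892935213149215394742270
    27607406636328932636535417140647098241078045325165834234629616044081152
    [26, 20, 11, 87, 8, 168, 33, 117, 200, 54, 120, 52, 7, 62, 36, 60, 34, 63, 57, 10, 4, 31, 13, 37, 61, 201, 225, 40, 228, 55, 66, 58, 147]
    [0, 27, 48, 54, 51, 215, 45, 53, 212, 24, 50, 26, 52, 239, 42, 18, 44, 107, 161, 131, 214, 47, 128, 197, 116, 33, 43, 194, 191, 179, 104, 119, 71] = true := by
  decide +kernel

theorem leaf13 : leafOK [62, 107, 98, 26] [59, 17]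
    249279775937247392201961519407260361581474416678959788897275661818642430
    210624583340371113503806416681723377518502165221473454528483426304
    [17, 63, 60, 87, 5, 20, 102, 90, 8, 32, 35, 222, 33, 21, 168, 219, 6, 38, 30, 28, 22, 93, 11, 9, 39, 174, 37, 7, 10, 31, 12, 13, 4]
    [0, 78, 81, 80, 54, 239, 75, 77, 51, 27, 24, 79, 18, 26, 241, 240, 161, 9, 17, 23, 25, 74, 48, 158, 8, 3, 14, 160, 7, 16, 5, 4, 13] = true := by
  decide +kernel

theorem leaf14 : leafOK [62, 107, 98, 26, 17] [59]
    249279986561830729316521998870875626143548174594026029820227020681887742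
    3256553024342801417161303760587098980550503169620180992
    [47, 65, 38, 135, 180, 39, 186, 92, 189, 48, 40, 57, 25, 192, 30, 31, 110, 20, 183, 94, 67, 76, 22, 103, 21, 109, 101, 99, 93, 66, 111, 102, 108]
    [0, 224, 9, 6, 239, 8, 233, 197, 230, 241, 7, 232, 152, 231, 151, 150, 179, 161, 240, 195, 222, 225, 159, 198, 160, 72, 188, 78, 196, 223, 66, 199, 73] = true := by
  decide +kernel

theorem leaf15 : leafOK [59, 95] [14, 98, 104, 0]
    486226856734303874435275098872345281029607373866406072516092477947902
    107841432298701915186071368525665987373212818004214070991139798794241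
    [0, 24, 117, 49, 105, 83, 110, 106, 162, 55, 2, 30, 29, 10, 13, 4, 183, 109, 1, 174, 28, 180, 171, 172, 164, 165, 163, 192, 190, 189, 191, 82]
    [0, 170, 9, 161, 89, 83, 86, 90, 80, 81, 134, 164, 167, 116, 143, 162, 163, 117, 165, 82, 98, 166, 169, 168, 224, 1, 63, 216, 198, 37, 197, 174] = true := by
  decide +kernel

theorem leaf16 : leafOK [59, 95, 0] [14, 98, 104]
    486226856734303874435275098872345281029607373866406072516092477947903
    107841432298701915186071368525665987373212818004214070991139798794240
    [14, 12, 114, 145, 193, 32, 113, 73, 43, 64, 94, 76, 67, 46, 49, 38, 40, 119, 111, 110, 82, 55, 85, 58, 115, 112, 30, 31, 118, 37, 28, 109, 34]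
    [0, 214, 232, 223, 215, 224, 233, 53, 241, 220, 62, 134, 217, 80, 161, 218, 216, 221, 83, 26, 230, 239, 227, 236, 81, 54, 74, 11, 38, 219, 166, 185, 92] = true := by
  decide +kernel

theorem leaf17 : leafOK [59, 95, 104] [14, 98]
    486228502339294823407504235265881263294209995007614745845491065274366
    107839786693710966213842232132130005108610196863005397661741211467776
    [14, 12, 163, 99, 15, 72, 40, 45, 13, 54, 111, 2, 31, 34, 18, 189, 108, 198, 63, 117, 36, 7, 4, 1, 3, 27, 9, 6, 162, 81, 10, 90, 171]
    [0, 30, 3, 57, 27, 54, 2, 81, 1, 82, 83, 12, 21, 102, 108, 189, 18, 28, 93, 9, 6, 91, 10, 135, 39, 109, 185, 188, 206, 45, 216, 166, 113] = true := by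
  decide +kernel

theorem leaf18 : leafOK [59, 95, 98] [14, 41]
    594066643428014840555581226128100142849691260173079613761065355952126
    47984021757632481029448379630735199958285024348880896
    [14, 45, 48, 85, 39, 11, 36, 8, 27, 18, 5, 24, 15, 30, 96, 21, 12, 9, 93, 6, 90, 87, 31, 84, 22, 13, 4, 7, 25, 28, 19, 16, 10]
    [0, 239, 78, 81, 84, 3, 87, 6, 15, 24, 9, 18, 241, 12, 27, 21, 2, 5, 30, 8, 33, 36, 11, 39, 20, 29, 38, 119, 17, 14, 104, 26, 116] = true := by
  decide +kernel

theorem leaf19 : leafOK [59, 95, 98, 41] [14]
    594066643428014888446066878884206029009544580351947715629321371369470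
    93536104876375143288526310556331856416768333463552
    [14, 2, 1, 163, 112, 123, 55, 216, 4, 190, 119, 38, 109, 120, 28, 189, 162, 219, 135, 165, 192, 91, 111, 37, 118, 138, 198, 225, 10, 144, 117, 64, 171]
    [0, 134, 135, 215, 54, 161, 81, 152, 162, 188, 137, 218, 27, 164, 108, 179, 206, 189, 233, 1, 216, 45, 55, 129, 18, 28, 180, 183, 126, 22, 9, 102, 237] = true := by
  decide +kernel

theorem leaf20 : leafOK [59, 14] [0, 17, 41]
    486226856721749671058037797618877883676590577510912791354753329004542
    210624583337162450965116371370448233611235245109024819614878662657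
    [0, 24, 73, 38, 165, 66, 126, 59, 60, 40, 48, 192, 27, 109, 63, 138, 198, 114, 31, 84, 117, 111, 37, 57, 81, 30, 56, 29, 108, 45, 36, 135]
    [0, 218, 54, 221, 216, 57, 27, 224, 63, 135, 3, 217, 215, 30, 60, 1, 219, 9, 144, 55, 36, 28, 222, 226, 136, 145, 227, 12, 31, 6, 223, 4] = true := by
  decide +kernel

theorem leaf21 : leafOK [59, 14, 41] [0, 17]
    486226856721749718948523450374983769836443897689780893223009344421886
    210624583337114560479463615264562073757915066240922951358863245313
    [0, 8, 24, 48, 216, 99, 72, 21, 165, 5, 63, 189, 33, 85, 6, 7, 90, 162, 81, 18, 29, 1, 9, 37, 108, 45, 30, 28, 54, 27, 3, 36]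
    [0, 9, 27, 3, 1, 54, 81, 30, 2, 12, 90, 28, 18, 82, 11, 10, 63, 55, 72, 135, 138, 216, 144, 222, 45, 6, 21, 189, 99, 24, 48, 181] = true := by
  decide +kernel

theorem leaf22 : leafOK [59, 14, 17] [0, 26, 62]
    486437481305086785618517261234142445750348492577153714306112192249854
    27614146622995821249627838432059804355040540245215868979124527819653121
    [0, 4, 7, 88, 116, 113, 59, 35, 61, 1, 162, 32, 87, 84, 60, 114, 189, 46, 111, 34, 56, 57, 33, 54, 108, 28, 29, 55, 37, 58, 31, 30]
    [0, 218, 215, 216, 54, 57, 3, 27, 1, 221, 60, 30, 233, 220, 2, 56, 223, 222, 59, 28, 18, 5, 137, 8, 62, 214, 45, 213, 25, 16, 151, 156] = true := by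
  decide +kernel

theorem leaf23 : leafOK [59, 14, 17, 62] [0, 26]
    493177467971978655263962895448265721016603999726169009304193588002814
    27607406636328929379982392797845681079774284738066853684126446423900161
    [0, 2, 89, 92, 228, 3, 11, 8, 147, 66, 5, 86, 167, 27, 102, 57, 30, 141, 60, 12, 93, 174, 96, 177, 168, 171, 15, 87, 90, 9, 33, 6]
    [0, 24, 81, 78, 6, 239, 159, 162, 87, 168, 165, 84, 3, 51, 132, 21, 48, 93, 18, 158, 77, 238, 138, 57, 2, 241, 219, 83, 80, 69, 185, 164] = true := by
  decide +kernel

theorem leaf24 : leafOK [59, 14, 17, 26] [0, 23]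
    28093844117634016165600910059079823525524633230644007398432558616150014
    205688069665899044107858794685652620250486558205076744418885633
    [0, 9, 51, 31, 29, 48, 30, 65, 94, 14, 24, 126, 72, 16, 38, 66, 96, 180, 45, 91, 174, 21, 63, 15, 171, 117, 27, 36, 90, 10, 11, 12]
    [0, 233, 18, 234, 236, 21, 235, 72, 75, 9, 45, 81, 239, 153, 99, 3, 73, 27, 162, 78, 237, 48, 74, 54, 240, 20, 180, 206, 152, 232, 12, 230] = true := by
  decide +kernel

theorem leaf25 : leafOK [59, 14, 17, 26, 23] [0]
    28093844323322085831499954166938618211177253481130565603509303035035646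
    1
    [0, 162, 1, 82, 163, 2, 83, 164, 3, 84, 165, 4, 85, 166, 5, 86, 167, 6, 87, 168, 7, 88, 169, 8, 89, 170, 9, 90, 171, 10, 91, 172]
    [0, 80, 241, 160, 79, 240, 159, 78, 239, 158, 77, 238, 157, 76, 237, 156, 75, 236, 155, 74, 235, 154, 73, 234, 153, 72, 233, 152, 71, 232, 151, 70] = true := by
  decide +kernel

section
variable {F : Type} [Field F] [Fintype F] [DecidableEq F] [Algebra (ZMod 3) F]

theorem caseA (hq : Fintype.card F = 243) (f : F → ZMod 3) (hf : Good f)
    (h59 : mst f 59 ≠ 0) (h62 : mst f 62 = 0) :
    33 ≤ (suppStar f).card ∨ (mst f 0 ≠ 0 ∧ 32 ≤ (suppStar f).card) := by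
  rcases ne_or_eq (mst f 107) 0 with h107 | h107
  · rcases ne_or_eq (mst f 0) 0 with h0 | h0
    · exact Or.inr ⟨h0, leaf hq f hf _ _ _ _ _ _
          (by simp only [List.forall_mem_cons, List.not_mem_nil, false_imp_iff, implies_true, and_true]; exact h62)
          (by simp only [List.forall_mem_cons, List.not_mem_nil, false_imp_iff, implies_true, and_true]; exact ⟨h59, h107, h0⟩)
          leaf1⟩
    · rcases ne_or_eq (mst f 23) 0 with h23 | h23
      · rcases ne_or_eq (mst f 14) 0 with h14 | h14
        · rcases ne_or_eq (mst f 95) 0 with h95 | h95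
          · rcases ne_or_eq (mst f 17) 0 with h17 | h17
            · exact Or.inl (leaf hq f hf _ _ _ _ _ _
                  (by simp only [List.forall_mem_cons, List.not_mem_nil, false_imp_iff, implies_true, and_true]; exact ⟨h62, h0⟩)
                  (by simp only [List.forall_mem_cons, List.not_mem_nil, false_imp_iff, implies_true, and_true]; exact ⟨h59, h107, h23, h14, h95, h17⟩)
                  leaf2)
            · exact Or.inl (leaf hq f hf _ _ _ _ _ _
                  (by simp only [List.forall_mem_cons, List.not_mem_nil, false_imp_iff, implies_true, and_true]; exact ⟨h62, h0, h17⟩)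
                  (by simp only [List.forall_mem_cons, List.not_mem_nil, false_imp_iff, implies_true, and_true]; exact ⟨h59, h107, h23, h14, h95⟩)
                  leaf3)
          · exact Or.inl (leaf hq f hf _ _ _ _ _ _
                (by simp only [List.forall_mem_cons, List.not_mem_nil, false_imp_iff, implies_true, and_true]; exact ⟨h62, h0, h95⟩)
                (by simp only [List.forall_mem_cons, List.not_mem_nil, false_imp_iff, implies_true, and_true]; exact ⟨h59, h107, h23, h14⟩)
                leaf4)
        · rcases ne_or_eq (mst f 17) 0 with h17 | h17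
          · rcases ne_or_eq (mst f 41) 0 with h41 | h41
            · exact Or.inl (leaf hq f hf _ _ _ _ _ _
                  (by simp only [List.forall_mem_cons, List.not_mem_nil, false_imp_iff, implies_true, and_true]; exact ⟨h62, h0, h14⟩)
                  (by simp only [List.forall_mem_cons, List.not_mem_nil, false_imp_iff, implies_true, and_true]; exact ⟨h59, h107, h23, h17, h41⟩)
                  leaf5)
            · exact Or.inl (leaf hq f hf _ _ _ _ _ _
                  (by simp only [List.forall_mem_cons, List.not_mem_nil, false_imp_iff, implies_true, and_true]; exact ⟨h62, h0, h14, h41⟩)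
                  (by simp only [List.forall_mem_cons, List.not_mem_nil, false_imp_iff, implies_true, and_true]; exact ⟨h59, h107, h23, h17⟩)
                  leaf6)
          · exact Or.inl (leaf hq f hf _ _ _ _ _ _
                (by simp only [List.forall_mem_cons, List.not_mem_nil, false_imp_iff, implies_true, and_true]; exact ⟨h62, h0, h14, h17⟩)
                (by simp only [List.forall_mem_cons, List.not_mem_nil, false_imp_iff, implies_true, and_true]; exact ⟨h59, h107, h23⟩)
                leaf7)
      · rcases ne_or_eq (mst f 104) 0 with h104 | h104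
        · rcases ne_or_eq (mst f 14) 0 with h14 | h14
          · exact Or.inl (leaf hq f hf _ _ _ _ _ _
                (by simp only [List.forall_mem_cons, List.not_mem_nil, false_imp_iff, implies_true, and_true]; exact ⟨h62, h0, h23⟩)
                (by simp only [List.forall_mem_cons, List.not_mem_nil, false_imp_iff, implies_true, and_true]; exact ⟨h59, h107, h104, h14⟩)
                leaf8)
          · exact Or.inl (leaf hq f hf _ _ _ _ _ _
                (by simp only [List.forall_mem_cons, List.not_mem_nil, false_imp_iff, implies_true, and_true]; exact ⟨h62, h0, h23, h14⟩)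
                (by simp only [List.forall_mem_cons, List.not_mem_nil, false_imp_iff, implies_true, and_true]; exact ⟨h59, h107, h104⟩)
                leaf9)
        · exact Or.inl (leaf hq f hf _ _ _ _ _ _
              (by simp only [List.forall_mem_cons, List.not_mem_nil, false_imp_iff, implies_true, and_true]; exact ⟨h62, h0, h23, h104⟩)
              (by simp only [List.forall_mem_cons, List.not_mem_nil, false_imp_iff, implies_true, and_true]; exact ⟨h59, h107⟩)
              leaf10)
  · rcases ne_or_eq (mst f 98) 0 with h98 | h98
    · exact Or.inl (leaf hq f hf _ _ _ _ _ _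
          (by simp only [List.forall_mem_cons, List.not_mem_nil, false_imp_iff, implies_true, and_true]; exact ⟨h62, h107⟩)
          (by simp only [List.forall_mem_cons, List.not_mem_nil, false_imp_iff, implies_true, and_true]; exact ⟨h59, h98⟩)
          leaf11)
    · rcases ne_or_eq (mst f 26) 0 with h26 | h26
      · exact Or.inl (leaf hq f hf _ _ _ _ _ _
            (by simp only [List.forall_mem_cons, List.not_mem_nil, false_imp_iff, implies_true, and_true]; exact ⟨h62, h107, h98⟩)
            (by simp only [List.forall_mem_cons, List.not_mem_nil, false_imp_iff, implies_true, and_true]; exact ⟨h59, h26⟩)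
            leaf12)
      · rcases ne_or_eq (mst f 17) 0 with h17 | h17
        · exact Or.inl (leaf hq f hf _ _ _ _ _ _
              (by simp only [List.forall_mem_cons, List.not_mem_nil, false_imp_iff, implies_true, and_true]; exact ⟨h62, h107, h98, h26⟩)
              (by simp only [List.forall_mem_cons, List.not_mem_nil, false_imp_iff, implies_true, and_true]; exact ⟨h59, h17⟩)
              leaf13)
        · exact Or.inl (leaf hq f hf _ _ _ _ _ _
              (by simp only [List.forall_mem_cons, List.not_mem_nil, false_imp_iff, implies_true, and_true]; exact ⟨h62, h107, h98, h26, h17⟩)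
              (by simp only [List.forall_mem_cons, List.not_mem_nil, false_imp_iff, implies_true, and_true]; exact h59)
              leaf14)

theorem caseB (hq : Fintype.card F = 243) (f : F → ZMod 3) (hf : Good f)
    (h59 : mst f 59 = 0) (h14 : mst f 14 ≠ 0) (h95 : mst f 95 = 0) :
    33 ≤ (suppStar f).card ∨ (mst f 0 ≠ 0 ∧ 32 ≤ (suppStar f).card) := by
  rcases ne_or_eq (mst f 98) 0 with h98 | h98
  · rcases ne_or_eq (mst f 104) 0 with h104 | h104
    · rcases ne_or_eq (mst f 0) 0 with h0 | h0
      · exact Or.inr ⟨h0, leaf hq f hf _ _ _ _ _ _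
            (by simp only [List.forall_mem_cons, List.not_mem_nil, false_imp_iff, implies_true, and_true]; exact ⟨h59, h95⟩)
            (by simp only [List.forall_mem_cons, List.not_mem_nil, false_imp_iff, implies_true, and_true]; exact ⟨h14, h98, h104, h0⟩)
            leaf15⟩
      · exact Or.inl (leaf hq f hf _ _ _ _ _ _
            (by simp only [List.forall_mem_cons, List.not_mem_nil, false_imp_iff, implies_true, and_true]; exact ⟨h59, h95, h0⟩)
            (by simp only [List.forall_mem_cons, List.not_mem_nil, false_imp_iff, implies_true, and_true]; exact ⟨h14, h98, h104⟩)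
            leaf16)
    · exact Or.inl (leaf hq f hf _ _ _ _ _ _
          (by simp only [List.forall_mem_cons, List.not_mem_nil, false_imp_iff, implies_true, and_true]; exact ⟨h59, h95, h104⟩)
          (by simp only [List.forall_mem_cons, List.not_mem_nil, false_imp_iff, implies_true, and_true]; exact ⟨h14, h98⟩)
          leaf17)
  · rcases ne_or_eq (mst f 41) 0 with h41 | h41
    · exact Or.inl (leaf hq f hf _ _ _ _ _ _
          (by simp only [List.forall_mem_cons, List.not_mem_nil, false_imp_iff, implies_true, and_true]; exact ⟨h59, h95, h98⟩)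
          (by simp only [List.forall_mem_cons, List.not_mem_nil, false_imp_iff, implies_true, and_true]; exact ⟨h14, h41⟩)
          leaf18)
    · exact Or.inl (leaf hq f hf _ _ _ _ _ _
          (by simp only [List.forall_mem_cons, List.not_mem_nil, false_imp_iff, implies_true, and_true]; exact ⟨h59, h95, h98, h41⟩)
          (by simp only [List.forall_mem_cons, List.not_mem_nil, false_imp_iff, implies_true, and_true]; exact h14)
          leaf19)

theorem caseC (hq : Fintype.card F = 243) (f : F → ZMod 3) (hf : Good f)
    (h59 : mst f 59 = 0) (h14 : mst f 14 = 0) (h0 : mst f 0 ≠ 0) :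
    33 ≤ (suppStar f).card ∨ (mst f 0 ≠ 0 ∧ 32 ≤ (suppStar f).card) := by
  rcases ne_or_eq (mst f 17) 0 with h17 | h17
  · rcases ne_or_eq (mst f 41) 0 with h41 | h41
    · exact Or.inr ⟨h0, leaf hq f hf _ _ _ _ _ _
          (by simp only [List.forall_mem_cons, List.not_mem_nil, false_imp_iff, implies_true, and_true]; exact ⟨h59, h14⟩)
          (by simp only [List.forall_mem_cons, List.not_mem_nil, false_imp_iff, implies_true, and_true]; exact ⟨h0, h17, h41⟩)
          leaf20⟩
    · exact Or.inr ⟨h0, leaf hq f hf _ _ _ _ _ _
          (by simp only [List.forall_mem_cons, List.not_mem_nil, false_imp_iff, implies_true, and_true]; exact ⟨h59, h14, h41⟩)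
          (by simp only [List.forall_mem_cons, List.not_mem_nil, false_imp_iff, implies_true, and_true]; exact ⟨h0, h17⟩)
          leaf21⟩
  · rcases ne_or_eq (mst f 26) 0 with h26 | h26
    · rcases ne_or_eq (mst f 62) 0 with h62 | h62
      · exact Or.inr ⟨h0, leaf hq f hf _ _ _ _ _ _
            (by simp only [List.forall_mem_cons, List.not_mem_nil, false_imp_iff, implies_true, and_true]; exact ⟨h59, h14, h17⟩)
            (by simp only [List.forall_mem_cons, List.not_mem_nil, false_imp_iff, implies_true, and_true]; exact ⟨h0, h26, h62⟩)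
            leaf22⟩
      · exact Or.inr ⟨h0, leaf hq f hf _ _ _ _ _ _
            (by simp only [List.forall_mem_cons, List.not_mem_nil, false_imp_iff, implies_true, and_true]; exact ⟨h59, h14, h17, h62⟩)
            (by simp only [List.forall_mem_cons, List.not_mem_nil, false_imp_iff, implies_true, and_true]; exact ⟨h0, h26⟩)
            leaf23⟩
    · rcases ne_or_eq (mst f 23) 0 with h23 | h23
      · exact Or.inr ⟨h0, leaf hq f hf _ _ _ _ _ _
            (by simp only [List.forall_mem_cons, List.not_mem_nil, false_imp_iff, implies_true, and_true]; exact ⟨h59, h14, h17, h26⟩)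
            (by simp only [List.forall_mem_cons, List.not_mem_nil, false_imp_iff, implies_true, and_true]; exact ⟨h0, h23⟩)
            leaf24⟩
      · exact Or.inr ⟨h0, leaf hq f hf _ _ _ _ _ _
            (by simp only [List.forall_mem_cons, List.not_mem_nil, false_imp_iff, implies_true, and_true]; exact ⟨h59, h14, h17, h26, h23⟩)
            (by simp only [List.forall_mem_cons, List.not_mem_nil, false_imp_iff, implies_true, and_true]; exact h0)
            leaf25⟩

end

end Pool.Agent.MP_f58820_co
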