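import Mathlib
import Pool.Agent.MP_f58820_co.Tree

namespace Pool.Agent.MP_f58820_co

set_option linter.unusedSectionVars false
set_option linter.style.haveILetI false

section
variable {F : Type} [Field F] [Fintype F] [DecidableEq F] [Algebra (ZMod 3) F]

def supp (f : F → ZMod 3) : Finset F := Finset.univ.filter fun x => f x ≠ 0

theorem supp_shift (f : F → ZMod 3) (b : F) : (supp (shiftFn f b)).card = (supp f).card := by
  apply Finset.card_bij (fun x _ => x - b)
  · intro x hx
    simpa [supp, shiftFn] using hx
  · intro x _ y _ h
    exact sub_left_injective h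
  · intro y hy
    refine ⟨y + b, ?_, by simp⟩
    simpa [supp, shiftFn] using hy

theorem mst_zero (f : F → ZMod 3) (hf : Good f) :
    mst f 0 = - algebraMap (ZMod 3) F (f 0) := by
  have h := hf 0 (by norm_num) (by decide +kernel)
  rw [mom_eq, pow_zero, mul_one] at h
  exact eq_neg_of_add_eq_zero_left h

theorem finish (f : F → ZMod 3) (hf : Good f)
    (h : 33 ≤ (suppStar f).card ∨ (mst f 0 ≠ 0 ∧ 32 ≤ (suppStar f).card)) :
    33 ≤ (supp f).card := by
  have hsub : suppStar f ⊆ supp f := by
    intro x hx
    simp only [suppStar, supp, Finset.mem_filter, Finset.mem_univ, true_and] at hx ⊢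
    exact hx.2
  rcases h with h | ⟨h0, h⟩
  · exact h.trans (Finset.card_le_card hsub)
  · have hf0 : f 0 ≠ 0 := by
      intro h'
      apply h0
      rw [mst_zero f hf, h', map_zero, neg_zero]
    have : (suppStar f).card < (supp f).card := by
      apply Finset.card_lt_card
      refine ⟨hsub, fun hh => ?_⟩
      have : (0 : F) ∈ suppStar f := hh (by simpa [supp] using hf0)
      simp [suppStar] at this
    omega

theorem weight_ge (hq : Fintype.card F = 243) (f : F → ZMod 3) (hf : Good f) (hne : f ≠ 0) :
    33 ≤ (supp f).card := by
  have hpow : ∀ c : F, c ^ 243 = c := fun c => by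
    have := FiniteField.pow_card c
    rwa [hq] at this
  by_cases h59 : mom f 59 = 0
  · by_cases h14 : mom f 14 = 0
    · obtain ⟨x, hx⟩ := Function.ne_iff.1 hne
      rw [← supp_shift f (-x)]
      have hg := good_shift f hf (-x)
      apply finish _ hg
      apply caseC hq _ hg
      · rw [mst_eq_mom _ (by norm_num), mom_shift_59 f hf, h59]
      · rw [mst_eq_mom _ (by norm_num), mom_shift_14 f hf, h14]
      · rw [mst_zero _ hg, neg_ne_zero, map_ne_zero]
        simpa [shiftFn] using hx
    · let b : F := (-(mom f 95) / mom f 14) ^ 3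
      rw [← supp_shift f b]
      have hg := good_shift f hf b
      apply finish _ hg
      apply caseB hq _ hg
      · rw [mst_eq_mom _ (by norm_num), mom_shift_59 f hf, h59]
      · rw [mst_eq_mom _ (by norm_num), mom_shift_14 f hf]; exact h14
      · rw [mst_eq_mom _ (by norm_num), mom_shift_95 f hf, ← pow_mul, hpow]
        field_simp
        ring
  · let b : F := (mom f 62 / mom f 59) ^ 81
    rw [← supp_shift f b]
    have hg := good_shift f hf b
    apply finish _ hg
    apply caseA hq _ hg
    · rw [mst_eq_mom _ (by norm_num), mom_shift_59 f hf]; exact h59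
    · rw [mst_eq_mom _ (by norm_num), mom_shift_62 f hf, ← pow_mul, hpow]
      field_simp
      ring

end

end Pool.Agent.MP_f58820_co
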