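import Mathlib
import Pool.Agent.MP_f58820_co.Defs
import Pool.Agent.MP_f58820_co.Weight
import Pool.Agent.MP_f58820_co.Tables

namespace Pool.Agent.MP_f58820_co

set_option linter.unusedSectionVars false
set_option linter.style.haveILetI false

open Polynomial in
theorem exists_gen {F : Type} [Field F] [Fintype F] [Algebra (ZMod 3) F]
    (hq : Fintype.card F = 243) : ∃ g : F, g ^ 5 = g + 2 := by
  classical
  haveI : CharP F 3 := charP_three
  let L := AlgebraicClosure F
  haveI : CharP L 3 := charP_of_injective_algebraMap (algebraMap F L).injective 3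
  obtain ⟨a, ha⟩ := IsAlgClosed.exists_root (X ^ 5 - X - 2 : L[X]) (by
    have : (X ^ 5 - X - 2 : L[X]).degree = 5 := by compute_degree!
    rw [this]; decide)
  have ha5 : a ^ 5 = a + 2 := by
    simp only [IsRoot.def, eval_sub, eval_pow, eval_X, eval_ofNat] at ha
    linear_combination ha
  have ha243 : a ^ 243 = a := by
    rw [show 243 = 242 + 1 by norm_num, pow_succ, pow_242 a ha5, one_mul]
  have hmem : ∃ g : F, algebraMap F L g = a := by
    by_contra hcon
    push Not at hcon
    let P : L[X] := X ^ 243 - X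
    have hdeg : P.natDegree = 243 := by
      simp only [P]; compute_degree!
    have hP0 : P ≠ 0 := by
      intro h; rw [h] at hdeg; simp at hdeg
    let s : Finset L := insert a (Finset.univ.image (algebraMap F L))
    have hs : s.card = 244 := by
      rw [Finset.card_insert_of_notMem, Finset.card_image_of_injective _ (algebraMap F L).injective,
        Finset.card_univ, hq]
      simpa using hcon
    have hsub : s.val ⊆ P.roots := by
      intro x hx
      rw [mem_roots hP0]
      simp only [s, Finset.mem_val, Finset.mem_insert, Finset.mem_image, Finset.mem_univ,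
        true_and] at hx
      simp only [P, IsRoot.def, eval_sub, eval_pow, eval_X]
      rcases hx with rfl | ⟨y, rfl⟩
      · rw [ha243, sub_self]
      · rw [← map_pow, ← hq, FiniteField.pow_card, sub_self]
    have := card_le_degree_of_subset_roots hsub
    omega
  obtain ⟨g, hg⟩ := hmem
  refine ⟨g, (algebraMap F L).injective ?_⟩
  rw [map_pow, map_add, hg, ha5, map_ofNat]

noncomputable def toC : ℤ√(-3) →+* ℂ :=
  Zsqrtd.lift ⟨Complex.I * (Real.sqrt 3 : ℂ), by
    have : ((Real.sqrt 3 : ℝ) : ℂ) * (Real.sqrt 3 : ℂ) = 3 := by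
      rw [← Complex.ofReal_mul, Real.mul_self_sqrt (by norm_num)]; norm_num
    push_cast
    linear_combination (-1) * this + (Real.sqrt 3 : ℂ) * (Real.sqrt 3 : ℂ) * Complex.I_mul_I⟩

theorem toC_inj : Function.Injective toC :=
  Zsqrtd.lift_injective _ fun n => by nlinarith [mul_self_nonneg n]

def toZ : ℤ√(-3) →+* ZMod 3 := Zsqrtd.lift ⟨0, by decide⟩

theorem toZ_apply (z : ℤ√(-3)) : toZ z = (z.re : ZMod 3) := by
  simp [toZ]

theorem toZ_surj : Function.Surjective toZ := fun a =>
  ⟨((a.val : ℕ) : ℤ√(-3)), by rw [map_natCast]; simp⟩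

theorem toC_eis (t : ℕ) (ht : t < 3) :
    toC (eis t) = 2 * Complex.exp (2 * Real.pi * Complex.I * (t : ℂ) / ((3 : ℕ) : ℂ)) := by
  have hc : Real.cos (2 * Real.pi / 3) = -1 / 2 := by
    rw [show 2 * Real.pi / 3 = Real.pi - Real.pi / 3 by ring, Real.cos_pi_sub,
      Real.cos_pi_div_three]; norm_num
  have hs : Real.sin (2 * Real.pi / 3) = Real.sqrt 3 / 2 := by
    rw [show 2 * Real.pi / 3 = Real.pi - Real.pi / 3 by ring, Real.sin_pi_sub,
      Real.sin_pi_div_three]
  have h1 : Complex.exp (2 * Real.pi * Complex.I / 3)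
      = (-1 + Complex.I * (Real.sqrt 3 : ℂ)) / 2 := by
    rw [show (2 * Real.pi * Complex.I / 3 : ℂ) = ((2 * Real.pi / 3 : ℝ) : ℂ) * Complex.I by
      push_cast; ring, Complex.exp_mul_I, ← Complex.ofReal_cos, ← Complex.ofReal_sin, hc, hs]
    push_cast; ring
  have h3 : ((Real.sqrt 3 : ℝ) : ℂ) * (Real.sqrt 3 : ℂ) = 3 := by
    rw [← Complex.ofReal_mul, Real.mul_self_sqrt (by norm_num)]; norm_num
  interval_cases t
  · simp [eis, toC]
  · rw [show (2 * Real.pi * Complex.I * ((1 : ℕ) : ℂ) / ((3 : ℕ) : ℂ) : ℂ)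
      = 2 * Real.pi * Complex.I / 3 by push_cast; ring, h1]
    simp [eis, toC]; ring
  · rw [show (2 * Real.pi * Complex.I * ((2 : ℕ) : ℂ) / ((3 : ℕ) : ℂ) : ℂ)
      = 2 * Real.pi * Complex.I / 3 + 2 * Real.pi * Complex.I / 3 by push_cast; ring,
      Complex.exp_add, h1]
    simp only [eis, toC, OfNat.ofNat_ne_zero, if_false, OfNat.ofNat_ne_one,
      Zsqrtd.lift_apply_apply]
    push_cast
    linear_combination (1 / 2 : ℂ) * h3
      - (1 / 2 : ℂ) * (Real.sqrt 3 : ℂ) * (Real.sqrt 3 : ℂ) * Complex.I_mul_I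

theorem list_range_sum {M : Type} [AddCommMonoid M] (n : ℕ) (u : ℕ → M) :
    ((List.range n).map u).sum = ∑ i ∈ Finset.range n, u i := by
  induction n with
  | zero => simp
  | succ n ih => rw [List.range_succ, List.map_append, List.sum_append, ih, Finset.sum_range_succ]; simp

section
variable {F : Type} [Field F] [Fintype F] [DecidableEq F] [Algebra (ZMod 3) F]

theorem trace_pow (hq : Fintype.card F = 243) (g : F) (hg : g ^ 5 = g + 2) (k : ℕ) :
    (Algebra.trace (ZMod 3) F (g ^ k)).val = dg trTab (k % 242) := by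
  haveI : CharP F 3 := charP_three
  haveI : Fact (Nat.Prime 3) := ⟨by norm_num⟩
  have hfr : Module.finrank (ZMod 3) F = 5 := by
    have := Module.card_eq_pow_finrank (K := ZMod 3) (V := F)
    rw [hq, ZMod.card, show 243 = 3 ^ 5 by norm_num] at this
    exact (Nat.pow_right_injective (by norm_num) this).symm
  have h := trace_ok
  simp only [List.all_eq_true, List.mem_range, Bool.and_eq_true, decide_eq_true_eq] at h
  obtain ⟨hlt, hs⟩ := h (k % 242) (Nat.mod_lt _ (by norm_num))
  have hs' := scalar_sum g hg _ _ hs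
  have htr := FiniteField.algebraMap_trace_eq_sum_pow (ZMod 3) F (g ^ k)
  rw [hfr, Nat.card_zmod, pow_mod_242 g hg k] at htr
  simp only [Finset.sum_range_succ, Finset.sum_range_zero, ← pow_mul] at htr
  simp only [List.map_cons, List.map_nil, List.sum_cons, List.sum_nil, ← pow_mod_242 g hg] at hs'
  have : algebraMap (ZMod 3) F (Algebra.trace (ZMod 3) F (g ^ (k % 242)))
      = algebraMap (ZMod 3) F ((dg trTab (k % 242) : ℕ) : ZMod 3) := by
    rw [htr, map_natCast, ← hs', pow_mod_242 g hg k]
    norm_num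
    ring
  rw [pow_mod_242 g hg k, (algebraMap (ZMod 3) F).injective this, ZMod.val_natCast,
    Nat.mod_eq_of_lt hlt]

noncomputable def bigS (g x : F) : ℤ√(-3) :=
  certSum fun i => (Algebra.trace (ZMod 3) F (g ^ (2 * i) * x)).val

noncomputable def bigH (g x : F) : ℤ√(-3) := ⟨(bigS g x).re / 27, (bigS g x).im / 27⟩

theorem certOK_spec (g : F) (hg : g ^ 5 = g + 2) (z : ℤ√(-3)) (l : List ℕ)
    (h : certOK z l = true) :
    27 * (⟨z.re / 27, z.im / 27⟩ : ℤ√(-3)) = z ∧
      algebraMap (ZMod 3) F (toZ ⟨z.re / 27, z.im / 27⟩) = (l.map fun n => g ^ n).sum := by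
  haveI : CharP F 3 := charP_three
  unfold certOK at h
  simp only [Bool.and_eq_true, beq_iff_eq] at h
  obtain ⟨⟨h1, h2⟩, h3⟩ := h
  constructor
  · ext
    · simp only [Zsqrtd.re_mul, Zsqrtd.re_ofNat, Zsqrtd.im_ofNat]; omega
    · simp only [Zsqrtd.im_mul, Zsqrtd.re_ofNat, Zsqrtd.im_ofNat]; omega
  · rw [scalar_sum g hg l _ h3, toZ_apply, map_intCast, ← Int.cast_natCast,
      Int.toNat_of_nonneg (by omega)]
    exact (CharP.intCast_eq_intCast_mod F 3).trans (by norm_num)

theorem bigH_spec (hq : Fintype.card F = 243) (g : F) (hg : g ^ 5 = g + 2) (x : F) :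
    27 * bigH g x = bigS g x ∧
      algebraMap (ZMod 3) F (toZ (bigH g x)) = ∑ r : Fin 121, x ^ jl r := by
  haveI : CharP F 3 := charP_three
  by_cases hx : x = 0
  · subst hx
    have hS : bigS g (0 : F) = certSum fun _ => 0 := by simp [bigS]
    have := certOK_spec g hg _ _ cert_zero
    rw [← hS] at this
    refine ⟨this.1, this.2.trans ?_⟩
    rw [Finset.sum_eq_single (0 : Fin 121)]
    · have : jl 0 = 0 := by decide +kernel
      simp [this]
    · intro r _ hr
      have h := jl_pos
      simp only [List.all_eq_true, List.mem_range, Bool.or_eq_true, beq_iff_eq, bne_iff_ne] at h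
      rcases h r r.2 with h | h
      · exact absurd (Fin.ext h) hr
      · exact zero_pow h
    · simp
  · have h1 : x ^ 242 = 1 := by
      have := FiniteField.pow_card_sub_one_eq_one x hx
      rwa [hq] at this
    obtain ⟨k, hk, rfl⟩ := (prim_root g hg).eq_pow_of_pow_eq_one h1
    have hS : bigS g (g ^ k) = certSum fun i => dg trTab ((2 * i + k) % 242) := by
      unfold bigS
      congr 1
      funext i
      rw [← pow_add, trace_pow hq g hg]
    have h := cert_ok
    simp only [List.all_eq_true, List.mem_range] at h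
    have := certOK_spec g hg _ _ (h k hk)
    rw [← hS] at this
    refine ⟨this.1, this.2.trans ?_⟩
    rw [List.map_map, list_range_sum, Finset.sum_range]
    refine Finset.sum_congr rfl fun r _ => ?_
    simp only [Function.comp]
    rw [← pow_mod_242 g hg, pow_mul]

theorem indep_of_small (hq : Fintype.card F = 243) (K : Finset F) (hK : K.card ≤ 32) :
    haveI : Fact (Nat.Prime 3) := ⟨Nat.prime_three⟩
    LinearIndependent ℂ (fun j : K => paleyColumn 3 F j.1) := by
  haveI : Fact (Nat.Prime 3) := ⟨Nat.prime_three⟩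
  haveI : CharP F 3 := charP_three
  by_contra hdep
  obtain ⟨c, hc, hc0⟩ := Fintype.not_linearIndependent_iff.1 hdep
  obtain ⟨g, hg⟩ := exists_gen hq
  have hprim := prim_root g hg
  have hg0 : g ≠ 0 := hprim.ne_zero (by norm_num)
  have hrow : ∀ n : ℕ, ∑ x : K, c x *
      toC (eis (Algebra.trace (ZMod 3) F (g ^ (2 * n) * x.1)).val) = 0 := by
    intro n
    have := congrFun hc ⟨g ^ (2 * n), pow_ne_zero _ hg0, ⟨g ^ n, by ring⟩⟩
    simp only [Finset.sum_apply, Pi.smul_apply, smul_eq_mul, Pi.zero_apply, paleyColumn] at this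
    simp only [toC_eis _ (ZMod.val_lt _), mul_left_comm _ (2 : ℂ), ← Finset.mul_sum]
    rw [this, mul_zero]
  have hH : ∀ s : Fin 121, ∑ x : K, c x * toC (bigH g (g ^ (2 * s.1) * x.1)) = 0 := by
    intro s
    have h27 : (27 : ℂ) ≠ 0 := by norm_num
    apply mul_left_cancel₀ h27
    rw [Finset.mul_sum, mul_zero]
    have : ∀ x : K, 27 * (c x * toC (bigH g (g ^ (2 * s.1) * x.1)))
        = ∑ i ∈ Finset.range 121, toC (gam i) * (c x *
          toC (eis (Algebra.trace (ZMod 3) F (g ^ (2 * (i + s.1)) * x.1)).val)) := by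
      intro x
      have h1 := congrArg toC (bigH_spec hq g hg (g ^ (2 * s.1) * x.1)).1
      rw [map_mul, map_ofNat] at h1
      rw [mul_left_comm, h1, bigS, certSum, list_range_sum, map_sum, Finset.mul_sum]
      refine Finset.sum_congr rfl fun i _ => ?_
      rw [map_mul, mul_add, pow_add, mul_assoc (g ^ (2 * i))]
      ring
    rw [Finset.sum_congr rfl fun x _ => this x, Finset.sum_comm]
    refine Finset.sum_eq_zero fun i _ => ?_
    rw [← Finset.mul_sum, hrow, mul_zero]
  obtain ⟨f0, hf0, hf⟩ := reduce_dep toC toC_inj toZ toZ_surj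
    (fun (s : Fin 121) (x : K) => bigH g (g ^ (2 * s.1) * x.1)) c
    (Function.ne_iff.2 hc0) hH
  let f : F → ZMod 3 := fun x => if h : x ∈ K then f0 ⟨x, h⟩ else 0
  have hfK : ∀ x : K, f x.1 = f0 x := fun x => by simp [f, x.2]
  have hmom : ∀ j, mom f j = ∑ x : K, algebraMap (ZMod 3) F (f0 x) * x.1 ^ j := by
    intro j
    unfold mom
    rw [← Finset.sum_subset (Finset.subset_univ K), ← Finset.sum_coe_sort K]
    · exact Finset.sum_congr rfl fun x _ => by rw [hfK]
    · intro x _ hx
      simp [f, hx]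
  have hzero : (fun r : Fin 121 => mom f (jl r)) = 0 := by
    apply Matrix.eq_zero_of_forall_pow_sum_mul_pow_eq_zero
      (f := fun r : Fin 121 => g ^ (2 * r.1))
    · intro a b hab
      have := hprim.pow_inj (by omega) (by omega) hab
      exact Fin.ext (by omega)
    · intro s
      have h1 := congrArg (algebraMap (ZMod 3) F) (hf s)
      rw [map_sum, map_zero] at h1
      simp only [map_mul, (bigH_spec hq g hg _).2, Finset.mul_sum] at h1
      rw [Finset.sum_comm] at h1
      rw [← h1]
      refine Finset.sum_congr rfl fun r _ => ?_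
      rw [hmom, Finset.sum_mul]
      refine Finset.sum_congr rfl fun x _ => ?_
      have : (g ^ (2 * s.1)) ^ jl r = (g ^ (2 * r.1)) ^ s.1 := by
        unfold jl
        split_ifs
        · ring
        · have e : (g ^ (2 * s.1)) ^ (r.1 + 121) = (g ^ (2 * r.1)) ^ s.1 * (g ^ 242) ^ s.1 := by
            ring
          rw [e, pow_242 g hg, one_pow, mul_one]
      rw [mul_pow, this]
      ring
  have hgood : Good f := by
    intro j hj hJ
    have h := jl_ok
    simp only [List.all_eq_true, List.mem_range, Bool.or_eq_true, Bool.not_eq_true',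
      beq_iff_eq] at h
    rcases h j hj with h | h
    · rw [h] at hJ; exact absurd hJ (by simp)
    · have := congrFun hzero ⟨j % 121, Nat.mod_lt _ (by norm_num)⟩
      simpa [h] using this
  have hne : f ≠ 0 := by
    obtain ⟨x, hx⟩ := Function.ne_iff.1 hf0
    exact Function.ne_iff.2 ⟨x.1, by rw [hfK]; exact hx⟩
  have h33 := weight_ge hq f hgood hne
  have hsub : supp f ⊆ K := by
    intro x hx
    by_contra hxK
    simp [supp, f, hxK] at hx
  have := Finset.card_le_card hsub
  omega

theorem spark_gt (hq : Fintype.card F = 243) :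
    haveI : Fact (Nat.Prime 3) := ⟨Nat.prime_three⟩
    32 < spark (paleyColumn 3 F) := by
  haveI : Fact (Nat.Prime 3) := ⟨Nat.prime_three⟩
  classical
  have hne : {k : ℕ | ∃ K : Finset F, K.card = k ∧
      ¬ LinearIndependent ℂ (fun j : K => paleyColumn 3 F j.1)}.Nonempty := by
    refine ⟨_, Finset.univ, rfl, fun h => ?_⟩
    have h1 := h.fintype_card_le_finrank
    rw [Module.finrank_fintype_fun_eq_card, Fintype.card_coe, Finset.card_univ] at h1
    have h2 : Fintype.card {a : F // a ≠ 0 ∧ IsSquare a} < Fintype.card F :=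
      Fintype.card_subtype_lt (x := 0) (by simp)
    omega
  obtain ⟨K, hK, hdep⟩ := Nat.sInf_mem hne
  by_contra hlt
  apply hdep
  apply indep_of_small hq K
  rw [hK]
  exact not_lt.1 hlt

end

end Pool.Agent.MP_f58820_co
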