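import Mathlib
import Pool.Agent.MP_f58820_co.Main

namespace Pool.Agent.MP_f58820_co

theorem exists_spark_gt : ∃ (p s : ℕ) (_ : Fact p.Prime), Odd p ∧ 1 ≤ s ∧ p ^ s % 4 = 3 ∧
    ((p + 1) / 2) ^ s < spark (paleyColumn p (GaloisField p s)) := by
  classical
  refine ⟨3, 5, ⟨Nat.prime_three⟩, by decide, by norm_num, by norm_num, ?_⟩
  have : Fact (Nat.Prime 3) := ⟨Nat.prime_three⟩
  let _ : Fintype (GaloisField 3 5) := Fintype.ofFinite _
  have hq : Fintype.card (GaloisField 3 5) = 243 := by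
    rw [← Nat.card_eq_fintype_card, GaloisField.card 3 5 (by norm_num)]
    norm_num
  exact spark_gt hq

end Pool.Agent.MP_f58820_co
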